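import Pool.Agent.Lib.NT.Main4

/-!
# Mean field theory is exact for hard spheres in high dimension

Let `b` be the volume of the ball of radius `2 a` in `ℝ^d`, `f` and `ρ₀` the free energy and the
close packing density of hard spheres of radius `a`. Let `θ < (1 - log 2) / 2`. If `d` is large, then
mean field theory is exact up to an exponentially small error: the density at the activity `lam` is
`c / b` with `c e^c = lam b`, as long as `c ≤ θ d`, and the free energy at the density `ρ` is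
`(x - x log ρ - x² / 2) / b` with `x = ρ b`, as long as `x ≤ θ d`.
-/

set_option autoImplicit false

open MeasureTheory Filter Pool.Agent.KacGas Pool.Agent.VdwGas

namespace Pool.Agent.MFold.MeanField

theorem result : ∀ θ : ℝ, 0 < θ → θ < (1 - Real.log 2) / 2 → ∃ d0 : ℕ, ∀ d : ℕ, d0 ≤ d →
    ∀ a b : ℝ, 0 < a → b = (volume {x : Fin d → ℝ | ∑ k, x k ^ 2 < (2 * a) ^ 2}).toReal →
    (∀ lam c : ℝ, 0 ≤ lam → 0 ≤ c → c * Real.exp c = lam * b → c ≤ θ * d →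
      ∀ δ : ℝ, 0 < δ → ∀ᶠ ℓ : ℝ in atTop,
        |b * ((∑' n : ℕ, n * (lam ^ n * Z d a (fun _ => 0) ℓ n)) /
          ∑' n : ℕ, lam ^ n * Z d a (fun _ => 0) ℓ n) / ℓ ^ d - c| ≤
          40 * (c ^ 3 * (√3 / 2) ^ d) + δ) ∧
    ∃ (f : ℝ → ℝ) (ρ₀ : ℝ), IsF d a (fun _ => 0) f ρ₀ ∧
      ∀ ρ x : ℝ, 0 < ρ → x = ρ * b → x ≤ θ * d → ρ < ρ₀ ∧
        |b * f ρ - (x - x * Real.log ρ - x ^ 2 / 2)| ≤ 40 * (x ^ 3 * (1 + x) * (√3 / 2) ^ d) := by
  intro θ hθ0 hθ1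
  obtain ⟨d0, h⟩ := Pool.Agent.HdGas.mfthm4 θ hθ0 hθ1
  refine ⟨d0, fun d hd a b ha hb => ?_⟩
  obtain ⟨j1, f, ρ₀, hF, -, j2⟩ := h d hd a ha
  have hb' : Pool.Agent.HdGas.ball d a = b := hb.symm
  rw [hb'] at j1 j2
  exact ⟨j1, f, ρ₀, hF, fun ρ x hρ hx hxd => ⟨(j2 ρ x hρ hx hxd).1, (j2 ρ x hρ hx hxd).2.2⟩⟩

end Pool.Agent.MFold.MeanField
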